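import Pool.Agent.Q143.CY.Cyc

/-!
# Amalgamated products over infinite cyclic subgroups

`Closed C` (`Pool.Agent.Y462.SS.Base`): the class `C` of groups contains `ℤ` and is closed under
groups that embed, finite products, free products, overgroups of finite index and colimits of directed
systems.  `ExtClosed C` (`Pool.Agent.Q152.WP.Perm`): if `G` maps onto a group `Q` of `C`, and the
kernel and the preimages of all infinite cyclic subgroups of `Q` are in `C`, then `G` is in `C`.  These
properties are known for the class of the groups which satisfy the `K`- and `L`-theoretic Farrell–Jones
conjecture with coefficients in additive categories and finite wreath products.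

`Am A c` is the amalgamated product of the groups `A i` in which the elements `c i` are identified.
`Det C A c`: some homomorphism `f` from `A` to a group `M` maps `c` to a central element of infinite
order, and `M / ⟨f(c)⟩` is in `C`.

Proof.  Let `f i : A i → M i` be the homomorphisms.  The amalgamated product of the groups `M i` over the
central elements is a central extension by `ℤ` of the free product of the groups `M i / ⟨f(c i)⟩`, so it is
in `C`.  The amalgamated product of the groups `A i` maps to it, and the map is injective on the
amalgamated subgroup; so it is in `C` (`push_edge`).
-/

set_option autoImplicit false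

namespace Pool.Agent.Results.MP_9d1ffa_al.CyclicAmalgams

open Pool.Agent.Y462.SS Pool.Agent.Q152.WP Pool.Agent.Q143.CY

/-- Let `C` be a class of groups with the closure properties `Closed C` and `ExtClosed C`.
(1) Let `A i` be groups of `C` (with any nonempty index set) and `c i` an element of `A i` such that some
homomorphism maps `c i` to a central element of infinite order of a group `M i` and `M i` modulo the
image of `c i` is in `C`.  Then the amalgamated product of the groups `A i` over the infinite cyclic
groups generated by the elements `c i` is in `C`.
(2) The condition on `c` holds if `c` is nontrivial in a nilpotent quotient with unique roots, in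
particular for all elements `c ≠ 1` of residually torsion-free nilpotent groups. -/
theorem result (C : ∀ (G : Type) [Group G], Prop) (hC : Closed C) (hE : ExtClosed C) :
    (∀ (ι : Type) [Nonempty ι] (A : ι → Type) [∀ i, Group (A i)] (c : ∀ i, A i),
      (∀ i, C (A i)) → (∀ i, Det C (A i) (c i)) → C (Am A c)) ∧
    (∀ (A N : Type) [Group A] [Group N] [Group.IsNilpotent N] [IsMulTorsionFree N] (f : A →* N)
      (c : A), f c ≠ 1 → Det C A c) :=
  ⟨fun _ _ A _ c hA hc => cyc_mem hC hE A c hA hc,
    fun _ _ _ _ _ _ f c hc => det_nilp hC hE f c hc⟩

end Pool.Agent.Results.MP_9d1ffa_al.CyclicAmalgams
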