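import Pool.Agent.Q91.VR.Mixed
import Pool.Agent.H23R2.Det

/-!
# Rigidity of determinants of invertible matrices over integral group rings

Let `G` be a torsion-free group which either has finitely many actions by increasing piecewise
projective homeomorphisms of the line and a linear representation in characteristic zero which
together separate the elements, or acts faithfully by automorphisms on a finitely generated linear
group (for example on a free group `F_n`) or on a finitely generated commutative algebra over a
field of characteristic zero, or has only finitely generated subgroups which are virtually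
residually finite `p`-groups for infinitely many primes `p`.  For every invertible matrix `A` over
`ℤG` there is `γ ∈ G` such that for every finite-dimensional representation `ρ` over a field of
characteristic zero `det ρ(A) / det ρ(γ)` is an algebraic number.  In particular this quotient is
constant along algebraic families of representations.
-/

set_option autoImplicit false

namespace Pool.Agent.Results.MP_9d1ffa_al.DeterminantRigidity

open Pool.Agent.H23R2 Pool.Agent.Q91.VR

universe u v

theorem result (G : Type u) [Group G] (htf : ∀ g : G, ∀ m : ℕ, 0 < m → g ^ m = 1 → g = 1)
    (hG : Mixed G) (n : ℕ) (A : (Matrix (Fin n) (Fin n) (MonoidAlgebra ℤ G))ˣ) :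
    ∃ γ : G, ∀ (L : Type v) [Field L] [CharZero L] (d : ℕ) (ρ : G →* GL (Fin d) L),
      IsAlgebraic ℚ
        ((Matrix.of fun x y : Fin n × Fin d =>
            (A.val x.1 y.1).coeff.sum fun g a => (a : L) * (ρ g).val x.2 y.2).det
          / (ρ γ).val.det) := by
  refine det_algebraic (fun S => ?_) A
  refine ((hG.good htf _ ⟨S, rfl⟩).sdiff (Set.finite_singleton 2)).mono ?_
  rintro p ⟨⟨hp, h1, h2⟩, hp2⟩
  exact ⟨hp, hp2, h1, h2⟩

end Pool.Agent.Results.MP_9d1ffa_al.DeterminantRigidity
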