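import Pool.Agent.Q143.JN.PA3

/-!
# The Farrell–Jones conjecture for groups of polynomial automorphisms of the plane

`Closed C` (`Pool.Agent.Y462.SS.Base`): the class `C` of groups contains `ℤ` and is closed under
groups that embed, finite products, free products, overgroups of finite index and colimits of directed
systems.  `ExtClosed C` (`Pool.Agent.Q152.WP.Perm`): if `G` maps onto a group `Q` of `C`, and the
kernel and the preimages of all infinite cyclic subgroups of `Q` are in `C`, then `G` is in `C`.  These
properties, and the fact that `C` contains the solvable groups, are known for the class of the groups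
which satisfy the `K`- and `L`-theoretic Farrell–Jones conjecture with coefficients in additive
categories and finite wreath products.

From `Pool.Agent.Q143.JN.PA`: `A2 K` is the group of the `K`-algebra automorphisms of the polynomial
ring `K[X_0, X_1]`, `Tame K` its subgroup generated by the linear automorphisms `li 0 g`, the
elementary automorphisms `el 0 q` (`X_0 ↦ X_0 + q(X_1)`, `X_1 ↦ X_1`) and the translations `tr v`. By
the theorem of Jung and van der Kulk (not used here) this is the whole group. An automorphism `φ` acts
on the points of `K^2` by `pt φ`, where `eval (pt φ x) p = eval x (φ p)`; `Stb x` is the group of the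
automorphisms that fix the point `x`, and `lin x : Stb x → GL_2(K)` is the linear part at `x` (the
inverse of the Jacobian matrix of `φ` at `x`).
-/

set_option autoImplicit false

namespace Pool.Agent.Results.MP_9d1ffa_al.PolynomialAutomorphisms

open Pool.Agent.Y462.SS Pool.Agent.Q152.WP Pool.Agent.Q143.JN

/-- Let `C` be a class of groups with the closure properties `Closed C` and `ExtClosed C` that
contains the solvable groups, and let `K` be a field.

(1) Let `Γ` be a group of tame automorphisms of `K[X_0, X_1]` and `x` a point of `K^2` with finite
orbit under `Γ`. If the group of the linear parts at `x` of the elements of `Γ` that fix `x` is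
in `C`, then `Γ` is in `C`.

(2) The group of all tame automorphisms that fix `x` is in `C` if and only if `GL_2(K)` is. -/
theorem result (C : ∀ (G : Type) [Group G], Prop) (hC : Closed C) (hE : ExtClosed C)
    (hS : ∀ (G : Type) [Group G], Group.IsSolvable G → C G) (K : Type) [Field K]
    (x : Fin 2 → K) :
    (∀ Γ : Subgroup (A2 K), Γ ≤ Tame K → {y | ∃ φ ∈ Γ, pt φ x = y}.Finite →
      C ((Γ.subgroupOf (Stb x)).map (lin x)) → C Γ) ∧
    (C ((Tame K).subgroupOf (Stb x)) ↔ C (M2 K)) :=
  ⟨fun Γ hΓ hfin hQ => tame_mem hC hE hS Γ hΓ x hfin hQ, stab_iff hC hE hS x⟩

end Pool.Agent.Results.MP_9d1ffa_al.PolynomialAutomorphisms
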