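import Pool.Agent.Q202.LT.Bij

/-!
Positive definite hermitian forms over integral group rings of arbitrary groups are orthogonal sums
of forms induced from subgroups, in a unique way.

Let `G` be any group, `M` a finitely generated `ℤG`-module and `φ` a positive definite hermitian
form on `M` with values in `ℤG` (the coefficient of `φ(x, x)` at `1` is positive for `x ≠ 0`).

(1) `(M, φ)` is an orthogonal direct sum of finitely many forms which are induced from subgroups
`K i` of `G`, from forms over `ℤ[K i]` on finitely generated `ℤ[K i]`-modules `L i` which are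
indecomposable as lattices. If `M` is projective, `L i` is projective over `ℤ[K i]`, and of finite
rank over `ℤ` if and only if `K i` is finite. If `φ` is nonsingular, so is its restriction to `L i`
over `ℤ[K i]`.

(2) The decomposition is unique: an isometry between two such forms maps the pieces of a
decomposition of the first to translates of the pieces of a given decomposition of the second,
bijectively, and the groups `K i` correspond to each other up to conjugation.

(3) If `M` is projective, `φ` is uniformly positive and `M` is generated by its vectors of norm at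
most two, all groups `K i` are finite.

For even nonsingular `φ` on projective `M`, (1) shows that the class of `φ` in the quadratic group
`L₀(ℤG)` is a sum of classes from the groups `L₀(ℤ[K i])`; under the hypothesis of (3) it comes from
finite subgroups.
-/

set_option autoImplicit false

namespace Pool.Agent.Results.MP_9d1ffa_al.UniqueDecomposition

open Pool.Agent.Y75.SV Pool.Agent.Y75.EK

theorem result (G : Type) [Group G] (M : Type) [AddCommGroup M] [Module (MonoidAlgebra ℤ G) M]
    [Module.Finite (MonoidAlgebra ℤ G) M] (φ : HermForm G M) (hpos : φ.Pos) :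
    -- (1) existence
    (∃ (k : ℕ) (K : Fin k → Subgroup G) (L : Fin k → AddSubgroup M), Decomposes φ K L) ∧
    (∀ (k : ℕ) (K : Fin k → Subgroup G) (L : Fin k → AddSubgroup M), Decomposes φ K L →
      -- the pieces
      (φ.Nonsingular → ∀ i, NonsingularOn φ (K i) (L i)) ∧
      (Module.Projective (MonoidAlgebra ℤ G) M →
        (∀ i, FGProj (K i) (L i)) ∧ (∀ i, Finite (K i) ↔ (L i).FG) ∧
        -- (3) short vectors
        (φ.UniformlyPos → φ.shortSpan = ⊤ → ∀ i, Finite (K i))) ∧
      -- (2) uniqueness
      (∀ (M' : Type) [AddCommGroup M'] [Module (MonoidAlgebra ℤ G) M'] (φ' : HermForm G M'),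
        φ'.Pos → ∀ (k' : ℕ) (K' : Fin k' → Subgroup G) (L' : Fin k' → AddSubgroup M'),
        Decomposes φ' K' L' → ∀ α : M ≃ₗ[MonoidAlgebra ℤ G] M',
        (∀ x y, φ'.val (α x) (α y) = φ.val x y) →
        ∃ (σ : Fin k ≃ Fin k') (g : Fin k → G), ∀ i,
          (L i).map α.toAddEquiv.toAddMonoidHom = shift (g i) (L' (σ i)) ∧
          ∀ s, s ∈ K i ↔ (g i)⁻¹ * s * g i ∈ K' (σ i))) := by
  refine ⟨?_, fun k K L h => ⟨fun hn i => h.nonsingularOn hpos hn i, fun hp => ?_, ?_⟩⟩
  · obtain ⟨k, K, L, h, _⟩ := exists_decomposition φ hpos
    exact ⟨k, K, L, h⟩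
  · exact ⟨fun i => h.fgProj hpos i, fun i => h.finite_iff hpos i,
      fun hu hs i => h.finite_of_short hu hs i⟩
  · intro M' _ _ φ' hpos' k' K' L' h' α hα
    exact Q202.LT.bij h h' hpos hpos' α hα

end Pool.Agent.Results.MP_9d1ffa_al.UniqueDecomposition
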